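import Pool.Agent.H854.LU.Sep
import Pool.Agent.H854.HF.Hyp

set_option autoImplicit false
set_option maxHeartbeats 1000000

/-!
# Smooth varieties over infinite fields of characteristic `p` are locally hypersurfaces
`z + g(x,z) ^ p = 0`
-/

open CategoryTheory Limits AlgebraicGeometry Polynomial

namespace Pool.Agent.H854.LU

open Pool.Agent.H854.FE Pool.Agent.H854.HF

/-- A domain that is étale over a polynomial ring over an infinite field of characteristic `p` has,
near every prime ideal, a localization of the form `k[x][z]/(P)`, where the irreducible monic polynomial `P` in `z` divides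
`z + g(x,z) ^ p` for a polynomial `g`, monic in `z`. -/
theorem exists_polys_at (k : Type) [Field k] [Infinite k] (p : ℕ) [Fact p.Prime] [CharP k p] {n : ℕ} {B : Type}
    [CommRing B] [IsDomain B] [Algebra k B]
    (g : MvPolynomial (Fin n) k →ₐ[k] B) (hg : g.toRingHom.Etale) (𝔮 : Ideal B) [𝔮.IsPrime] :
    ∃ (h : B) (g P : (MvPolynomial (Fin n) k)[X]), h ∉ 𝔮 ∧ g.Monic ∧ P.Monic ∧ Irreducible P ∧
      P ∣ X + g ^ p ∧ Nonempty (AdjoinRoot P ≃ₐ[k] Localization.Away h) := by
  obtain ⟨g', hg1, hg2⟩ := exists_finite_etale k p g hg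
  let A := MvPolynomial (Fin n) k
  let a1 : Algebra A B := g'.toRingHom.toAlgebra
  have hs : IsScalarTower k A B := IsScalarTower.of_algebraMap_eq' g'.comp_algebraMap.symm
  have hfin : Module.Finite A B := hg2
  have het : Algebra.Etale A B := hg1
  have hinj : Function.Injective (algebraMap A B) := by
    rw [injective_iff_map_eq_zero]
    intro a ha
    by_contra h0
    have h1 : a • (1 : B) = 0 := by rw [Algebra.smul_def, ha, zero_mul]
    exact one_ne_zero ((smul_eq_zero.mp h1).resolve_left h0)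
  obtain ⟨h, z, h0, hz⟩ := exists_generator_at k A B (𝔮.comap (algebraMap A B))
  let b := algebraMap A B h
  have hb1 : b ∉ 𝔮 := h0
  have hb0 : b ≠ 0 := fun hb => hb1 (hb ▸ 𝔮.zero_mem)
  let C := Localization.Away b
  have hCdom : IsDomain C :=
    IsLocalization.isDomain_localization (powers_le_nonZeroDivisors_of_noZeroDivisors hb0)
  have hs2 : IsScalarTower k A C := by
    refine IsScalarTower.of_algebraMap_eq fun c => ?_
    rw [IsScalarTower.algebraMap_apply A B C, ← IsScalarTower.algebraMap_apply k A B,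
      ← IsScalarTower.algebraMap_apply k B C]
  have hetC : Algebra.Etale B C := Algebra.Etale.of_isLocalizationAway b
  have hetAC : Algebra.Etale A C := Algebra.Etale.comp A B C
  let x : Fin n → C := fun i => algebraMap A C (MvPolynomial.X i)
  have hx : (MvPolynomial.aeval x : A →ₐ[k] C) = IsScalarTower.toAlgHom k A C := by
    ext i
    rw [MvPolynomial.aeval_X]
    rfl
  have hxe : (MvPolynomial.aeval x : A →ₐ[k] C).toRingHom.Etale := by
    rw [hx]
    exact (RingHom.etale_algebraMap).mpr hetAC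
  have hgen : Algebra.adjoin k (insert z (Set.range x)) = ⊤ := by
    have hA : ∀ a : A, algebraMap A C a ∈ Algebra.adjoin k (insert z (Set.range x)) := by
      intro a
      have h1 : algebraMap A C a = MvPolynomial.aeval x a := by
        rw [hx]
        rfl
      rw [h1]
      have h2 : MvPolynomial.aeval x a ∈ Algebra.adjoin k (Set.range x) := by
        rw [← MvPolynomial.aeval_range]
        exact ⟨a, rfl⟩
      exact Algebra.adjoin_mono (Set.subset_insert _ _) h2
    rw [eq_top_iff]
    intro c hc'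
    have hc : c ∈ Algebra.adjoin A {z} := hz ▸ trivial
    clear hc'
    induction hc using Algebra.adjoin_induction with
    | mem y hy =>
      rw [Set.mem_singleton_iff] at hy
      subst hy
      exact Algebra.subset_adjoin (Set.mem_insert _ _)
    | algebraMap r => exact hA r
    | add y y' _ _ hy hy' => exact add_mem hy hy'
    | mul y y' _ _ hy hy' => exact mul_mem hy hy'
  obtain ⟨t, ht1, ht2, ht3, ht4⟩ := exists_mono_coords k p x hxe z hgen
  obtain ⟨g₀, P, h1, h2, h3, h4, h5⟩ := polys_of_mono k p t z ht1 ht2 ht3 ht4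
  exact ⟨b, g₀, P, hb1, h1, h2, h3, h4, h5⟩


/-- Every point of a smooth variety over an infinite field of characteristic `p` has an open
neighbourhood that is isomorphic to a hypersurface `P(x,z) = 0`, where `P` is an irreducible factor, monic in `z`, of
`z + g(x,z) ^ p` for a polynomial `g`, monic in `z`. -/
theorem exists_hypersurface_at (p : ℕ) [Fact p.Prime] (n : ℕ) (k : Type) [Field k] [Infinite k]
    [CharP k p]
    (X : Scheme.{0}) [IsIntegral X] (f : X ⟶ Spec (.of k)) [SmoothOfRelativeDimension n f] (x₀ : X) :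
    ∃ (g P : (MvPolynomial (Fin n) k)[X]) (j : hyp k n P ⟶ X), g.Monic ∧ P.Monic ∧
      Irreducible P ∧ P ∣ Polynomial.X + g ^ p ∧ IsOpenImmersion j ∧ j ≫ f = hypStr k n P ∧
      x₀ ∈ Set.range j := by
  obtain ⟨U, hU, V, hV, hx, e, hf⟩ :=
    SmoothOfRelativeDimension.exists_isStandardSmoothOfRelativeDimension (n := n) (f := f)
      x₀
  have hUtop : U = ⊤ := by
    have : Subsingleton (Spec (.of k)) := inferInstanceAs (Subsingleton (PrimeSpectrum k))
    ext y
    simp only [TopologicalSpace.Opens.coe_top, Set.mem_univ, iff_true]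
    have h1 : f x₀ ∈ U := e hx
    rw [Subsingleton.elim y (f x₀)]
    exact h1
  subst hUtop
  have hVn : Nonempty V := ⟨⟨_, hx⟩⟩
  let c : k ≃+* Γ(Spec (.of k), ⊤) :=
    (Scheme.ΓSpecIso (.of k)).symm.commRingCatIsoToRingEquiv
  have h3 := hf.comp (RingHom.IsStandardSmoothOfRelativeDimension.equiv c)
  rw [add_zero] at h3
  obtain ⟨g, hg1, hg⟩ := h3.exists_etale_mvPolynomial
  let a1 : Algebra k Γ(X, V) := (g.comp MvPolynomial.C).toAlgebra
  let g' : MvPolynomial (Fin n) k →ₐ[k] Γ(X, V) := { g with commutes' := fun r => rfl }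
  have hg' : g'.toRingHom.Etale := hg
  let 𝔮 : PrimeSpectrum Γ(X, V) := hV.primeIdealOf ⟨x₀, hx⟩
  obtain ⟨h, g₀, P, h0, hg₀, hP1, hP2, hPF, ⟨ε⟩⟩ := exists_polys_at k p g' hg' 𝔮.asIdeal
  let φ₁ : Γ(X, V) →+* Localization.Away h := algebraMap _ _
  let φ₂ : Localization.Away h →+* AdjoinRoot P := ε.symm.toRingEquiv.toRingHom
  have hcomp : (φ₂.comp φ₁).comp (g.comp MvPolynomial.C) = algebraMap k (AdjoinRoot P) := by
    ext r
    have h1 : φ₁ (algebraMap k Γ(X, V) r) = algebraMap k (Localization.Away h) r :=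
      (IsScalarTower.algebraMap_apply k Γ(X, V) (Localization.Away h) r).symm
    have h2 : ε.symm (algebraMap k (Localization.Away h) r) = algebraMap k (AdjoinRoot P) r :=
      ε.symm.commutes r
    change ε.symm (φ₁ (algebraMap k Γ(X, V) r)) = _
    rw [h1, h2]
  refine ⟨g₀, P, Spec.map (CommRingCat.ofHom φ₂) ≫ Spec.map (CommRingCat.ofHom φ₁) ≫ hV.fromSpec,
    hg₀, hP1, hP2, hPF, ?_, ?_, ?_⟩
  · have h1 : IsIso (CommRingCat.ofHom φ₂) :=
      (ε.symm.toRingEquiv.toCommRingCatIso).isIso_hom
    have h2 : IsOpenImmersion (Spec.map (CommRingCat.ofHom φ₁)) :=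
      Scheme.isOpenImmersion_SpecMap_localizationAway (R := .of Γ(X, V)) h
    infer_instance
  · have h5 := (isAffineOpen_top (Spec (.of k))).SpecMap_appLE_fromSpec f hV e
    rw [IsAffineOpen.fromSpec_top, Scheme.isoSpec_Spec_inv] at h5
    have h6 : Spec.map (CommRingCat.ofHom ((f.appLE ⊤ V e).hom.comp (c : k →+* _))) =
      Spec.map (f.appLE ⊤ V e) ≫ Spec.map (Scheme.ΓSpecIso (.of k)).inv := by
      rw [← Spec.map_comp]
      rfl
    rw [Category.assoc, Category.assoc, ← h5, ← h6, ← Spec.map_comp, ← Spec.map_comp,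
      ← CommRingCat.ofHom_comp, ← CommRingCat.ofHom_comp, ← hg1, ← RingHom.comp_assoc, hcomp]
  · have h7 : 𝔮 ∈ Set.range (PrimeSpectrum.comap φ₁) := by
      rw [PrimeSpectrum.localization_away_comap_range (Localization.Away h) h]
      exact h0
    obtain ⟨y, hy⟩ := h7
    let w : PrimeSpectrum (AdjoinRoot P) := PrimeSpectrum.comap ε.toRingEquiv.toRingHom y
    have hw : PrimeSpectrum.comap φ₂ w = y := by
      have h8 : (ε.toRingEquiv.toRingHom).comp φ₂ = RingHom.id _ := by
        ext r
        exact ε.apply_symm_apply r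
      change PrimeSpectrum.comap φ₂ (PrimeSpectrum.comap ε.toRingEquiv.toRingHom y) = y
      rw [← PrimeSpectrum.comap_comp_apply, h8, PrimeSpectrum.comap_id]
    have h9 : hV.fromSpec 𝔮 = x₀ := hV.fromSpec_primeIdealOf ⟨x₀, hx⟩
    refine ⟨w, ?_⟩
    have h10 : (Spec.map (CommRingCat.ofHom φ₂) ≫ Spec.map (CommRingCat.ofHom φ₁) ≫
        hV.fromSpec) w = hV.fromSpec (PrimeSpectrum.comap φ₁ (PrimeSpectrum.comap φ₂ w)) := rfl
    refine h10.trans ?_
    rw [hw, hy, h9]

end Pool.Agent.H854.LU
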