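import Mathlib

set_option autoImplicit false
set_option maxHeartbeats 1000000

/-!
# Compactness of the space of valuation rings
-/

namespace Pool.Agent.H854.LU

/-- If every valuation ring of `K` that contains `A` contains one of the finite sets `S i`, then
finitely many of the sets `S i` suffice. -/
theorem exists_finite_cover {K : Type} [Field K] (A : Set K) {ι : Type} (S : ι → Finset K)
    (h : ∀ V : ValuationSubring K, A ⊆ V → ∃ i, ∀ s ∈ S i, s ∈ V) :
    ∃ T : Finset ι, ∀ V : ValuationSubring K, A ⊆ V → ∃ i ∈ T, ∀ s ∈ S i, s ∈ V := by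
  classical
  have hcl : ∀ (a : K) (b : Bool), IsClosed {χ : K → Bool | χ a = b} := fun a b =>
    isClosed_eq (continuous_apply a) continuous_const
  have hop : ∀ (a : K) (b : Bool), IsOpen {χ : K → Bool | χ a = b} := by
    intro a b
    have h1 : IsOpen ((fun χ : K → Bool => χ a) ⁻¹' {b}) :=
      (isOpen_discrete _).preimage (continuous_apply a)
    exact h1
  let Z : Set (K → Bool) := {χ | (∀ a ∈ A, χ a = true) ∧ χ 0 = true ∧ χ 1 = true ∧
    (∀ a b, χ a = false ∨ χ b = false ∨ χ (a + b) = true) ∧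
    (∀ a b, χ a = false ∨ χ b = false ∨ χ (a * b) = true) ∧
    (∀ a, χ a = false ∨ χ (-a) = true) ∧ (∀ a, χ a = true ∨ χ a⁻¹ = true)}
  have hZ : IsClosed Z := by
    have e : Z = (⋂ a ∈ A, {χ | χ a = true}) ∩ ({χ | χ 0 = true} ∩ ({χ | χ 1 = true} ∩
      ((⋂ a, ⋂ b, ({χ | χ a = false} ∪ ({χ | χ b = false} ∪ {χ | χ (a + b) = true}))) ∩
      ((⋂ a, ⋂ b, ({χ | χ a = false} ∪ ({χ | χ b = false} ∪ {χ | χ (a * b) = true}))) ∩
      ((⋂ a, ({χ | χ a = false} ∪ {χ | χ (-a) = true})) ∩
        (⋂ a, ({χ | χ a = true} ∪ {χ | χ a⁻¹ = true}))))))) := by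
      ext χ
      simp only [Z, Set.mem_setOf_eq, Set.mem_inter_iff, Set.mem_iInter, Set.mem_union]
    rw [e]
    refine (isClosed_biInter fun a _ => hcl a true).inter ((hcl 0 true).inter ((hcl 1 true).inter
      ((isClosed_iInter fun a => isClosed_iInter fun b => (hcl a false).union
        ((hcl b false).union (hcl _ true))).inter
      ((isClosed_iInter fun a => isClosed_iInter fun b => (hcl a false).union
        ((hcl b false).union (hcl _ true))).inter
      ((isClosed_iInter fun a => (hcl a false).union (hcl _ true)).inter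
        (isClosed_iInter fun a => (hcl a true).union (hcl _ true)))))))
  have hZc : IsCompact Z := hZ.isCompact
  let val : ∀ χ ∈ Z, ValuationSubring K := fun χ hχ =>
    { carrier := {a | χ a = true}
      mul_mem' := fun {a b} ha hb => by
        rcases hχ.2.2.2.2.1 a b with h | h | h
        · rw [Set.mem_setOf_eq, h] at ha
          exact absurd ha (by decide)
        · rw [Set.mem_setOf_eq, h] at hb
          exact absurd hb (by decide)
        · exact h
      one_mem' := hχ.2.2.1
      add_mem' := fun {a b} ha hb => by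
        rcases hχ.2.2.2.1 a b with h | h | h
        · rw [Set.mem_setOf_eq, h] at ha
          exact absurd ha (by decide)
        · rw [Set.mem_setOf_eq, h] at hb
          exact absurd hb (by decide)
        · exact h
      zero_mem' := hχ.2.1
      neg_mem' := fun {a} ha => by
        rcases hχ.2.2.2.2.2.1 a with h | h
        · rw [Set.mem_setOf_eq, h] at ha
          exact absurd ha (by decide)
        · exact h
      mem_or_inv_mem' := fun a => hχ.2.2.2.2.2.2 a }
  have hval : ∀ χ (hχ : χ ∈ Z) a, a ∈ val χ hχ ↔ χ a = true := fun χ hχ a => Iff.rfl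
  obtain ⟨T, hT⟩ := hZc.elim_finite_subcover (fun i => ⋂ s ∈ S i, {χ : K → Bool | χ s = true})
    (fun i => isOpen_biInter_finset fun s _ => hop s true) (by
      intro χ hχ
      obtain ⟨i, hi⟩ := h (val χ hχ) (fun a ha => hχ.1 a ha)
      refine Set.mem_iUnion.mpr ⟨i, ?_⟩
      simp only [Set.mem_iInter, Set.mem_setOf_eq]
      exact fun s hs => hi s hs)
  refine ⟨T, fun V hV => ?_⟩
  let χ : K → Bool := fun a => decide (a ∈ V)
  have hχt : ∀ a, χ a = true ↔ a ∈ V := fun a => by simp [χ]
  have hχf : ∀ a, χ a = false ↔ a ∉ V := fun a => by simp [χ]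
  have hχZ : χ ∈ Z := by
    refine ⟨fun a ha => (hχt a).mpr (hV ha), (hχt 0).mpr V.zero_mem, (hχt 1).mpr V.one_mem,
      fun a b => ?_, fun a b => ?_, fun a => ?_, fun a => ?_⟩
    · by_cases ha : a ∈ V
      · by_cases hb : b ∈ V
        · exact Or.inr (Or.inr ((hχt _).mpr (V.add_mem _ _ ha hb)))
        · exact Or.inr (Or.inl ((hχf b).mpr hb))
      · exact Or.inl ((hχf a).mpr ha)
    · by_cases ha : a ∈ V
      · by_cases hb : b ∈ V
        · exact Or.inr (Or.inr ((hχt _).mpr (V.mul_mem _ _ ha hb)))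
        · exact Or.inr (Or.inl ((hχf b).mpr hb))
      · exact Or.inl ((hχf a).mpr ha)
    · by_cases ha : a ∈ V
      · exact Or.inr ((hχt _).mpr (V.neg_mem _ ha))
      · exact Or.inl ((hχf a).mpr ha)
    · rcases V.mem_or_inv_mem a with ha | ha
      · exact Or.inl ((hχt a).mpr ha)
      · exact Or.inr ((hχt _).mpr ha)
  have h1 := hT hχZ
  simp only [Set.mem_iUnion, Set.mem_iInter, Set.mem_setOf_eq] at h1
  obtain ⟨i, hi, hs⟩ := h1
  exact ⟨i, hi, fun s hs' => (hχt s).mp (hs s hs')⟩

end Pool.Agent.H854.LU
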