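import Pool.Agent.H854.LU.Smooth

set_option autoImplicit false
set_option maxHeartbeats 1000000
set_option synthInstance.maxHeartbeats 400000

/-!
# Smooth subrings of valuation rings
-/

open Polynomial Algebra

namespace Pool.Agent.H854.LU

theorem mem_of_adjoinRoot (k : Type) {K : Type} [Field k] [Field K] [Algebra k K] {n : ℕ}
    (P : (MvPolynomial (Fin n) k)[X]) (Ψ : AdjoinRoot P →ₐ[k] K) (e : AdjoinRoot P) :
    Ψ e ∈ pring k (fun i => Ψ (algebraMap (MvPolynomial (Fin n) k) (AdjoinRoot P)
      (MvPolynomial.X i))) (Ψ (AdjoinRoot.root P)) := by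
  have he : e ∈ Algebra.adjoin (MvPolynomial (Fin n) k) {AdjoinRoot.root P} := by
    rw [AdjoinRoot.adjoinRoot_eq_top]
    trivial
  induction he using Algebra.adjoin_induction with
  | mem y hy =>
    rw [Set.mem_singleton_iff] at hy
    rw [hy]
    exact Algebra.subset_adjoin (Set.mem_insert _ _)
  | algebraMap r =>
    have h1 : Ψ (algebraMap (MvPolynomial (Fin n) k) (AdjoinRoot P) r) =
        MvPolynomial.aeval (fun i => Ψ (algebraMap (MvPolynomial (Fin n) k) (AdjoinRoot P)
          (MvPolynomial.X i))) r := by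
      have h2 : Ψ.comp (IsScalarTower.toAlgHom k (MvPolynomial (Fin n) k) (AdjoinRoot P)) =
          MvPolynomial.aeval (fun i => Ψ (algebraMap (MvPolynomial (Fin n) k) (AdjoinRoot P)
            (MvPolynomial.X i))) := by
        ext i
        simp
      exact DFunLike.congr_fun h2 r
    rw [h1]
    have h3 : MvPolynomial.aeval (fun i => Ψ (algebraMap (MvPolynomial (Fin n) k) (AdjoinRoot P)
        (MvPolynomial.X i))) r ∈
        Algebra.adjoin k (Set.range (fun i : Fin n =>
          Ψ (algebraMap (MvPolynomial (Fin n) k) (AdjoinRoot P) (MvPolynomial.X i)))) := by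
      rw [← MvPolynomial.aeval_range]
      exact ⟨_, rfl⟩
    exact Algebra.adjoin_mono (Set.subset_insert _ _) h3
  | add y y' _ _ hy hy' =>
    rw [map_add]
    exact add_mem hy hy'
  | mul y y' _ _ hy hy' =>
    rw [map_mul]
    exact mul_mem hy hy'

/-- A smooth subring of a valuation ring is contained in a subring `k[x_1, ..., x_n, w]` of it such
that `w` is a polynomial in `x_1, ..., x_n, w ^ p` and integral over `k[x_1, ..., x_n]`. -/
theorem exists_pring (p : ℕ) [Fact p.Prime] (k K : Type) [Field k] [Infinite k] [CharP k p]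
    [Field K] [Algebra k K] (R : Subalgebra k K) [hR : Algebra.Smooth k R]
    (hfr : ∀ z : K, ∃ a ∈ R, ∃ b ∈ R, b ≠ 0 ∧ z = a / b) (n : ℕ)
    (hn : Algebra.trdeg k K = n) (V : ValuationSubring K) (hV : ∀ r ∈ R, r ∈ V) :
    ∃ (x : Fin n → K) (w : K), (∀ i, x i ∈ V) ∧ w ∈ V ∧ R ≤ pring k x w ∧
      w ∈ pring k x (w ^ p) ∧ IsIntegral (Algebra.adjoin k (Set.range x)) w := by
  classical
  have hRdom : IsDomain R := inferInstance
  let ι : R →+* V := (R.val.toRingHom).codRestrict V.toSubring (fun r => hV r r.2)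
  have hι : ∀ r : R, ((ι r : V) : K) = r := fun r => rfl
  let P₀ : Ideal R := (IsLocalRing.maximalIdeal V).comap ι
  have hP₀ : P₀.IsPrime := Ideal.IsPrime.comap ι
  have hnotin : ∀ r : R, r ∉ P₀ → IsUnit (ι r) := by
    intro r hr
    by_contra hu
    exact hr ((IsLocalRing.mem_maximalIdeal _).mpr hu)
  have hfp : Algebra.FinitePresentation k R := hR.finitePresentation
  have hsm : Algebra.IsSmoothAt k P₀ := inferInstance
  obtain ⟨f, hf, hst⟩ := Algebra.IsSmoothAt.exists_notMem_isStandardSmooth k P₀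
  have hf0 : f ≠ 0 := fun h => hf (h ▸ P₀.zero_mem)
  let B := Localization.Away f
  have hBdom : IsDomain B :=
    IsLocalization.isDomain_localization (powers_le_nonZeroDivisors_of_noZeroDivisors hf0)
  obtain ⟨m, g, hg1, hg⟩ := RingHom.IsStandardSmooth.exists_etale_mvPolynomial
    (f := algebraMap k B) (by rwa [RingHom.isStandardSmooth_algebraMap])
  let g' : MvPolynomial (Fin m) k →ₐ[k] B := { g with commutes' := fun r => RingHom.congr_fun hg1 r }
  have hg' : g'.toRingHom.Etale := hg
  -- the embedding of `B`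
  let ι₁ : B →+* V := IsLocalization.Away.lift f (hnotin f hf)
  have hι₁ : ∀ r : R, ι₁ (algebraMap R B r) = ι r := fun r => IsLocalization.Away.lift_eq f _ r
  have hι₁inj : Function.Injective ι₁ := by
    rw [injective_iff_map_eq_zero]
    intro b hb
    obtain ⟨e, a, hba⟩ := IsLocalization.Away.surj f b
    have h1 : ι a = 0 := by rw [← hι₁, ← hba, map_mul, hb, zero_mul]
    have h2 : a = 0 := by
      have h3 := congrArg (fun v : V => (v : K)) h1
      exact Subtype.ext h3
    rw [h2, map_zero] at hba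
    have h4 : algebraMap R B f ≠ 0 := by
      intro h
      have h5 := congrArg ι₁ h
      rw [hι₁, map_zero] at h5
      exact (hnotin f hf).ne_zero h5
    exact (mul_eq_zero.mp hba).resolve_right (pow_ne_zero e h4)
  let j : B →ₐ[k] K :=
    { V.subtype.comp ι₁ with
      commutes' := fun c => by
        change ((ι₁ (algebraMap k B c) : V) : K) = _
        rw [IsScalarTower.algebraMap_apply k R B, hι₁, hι]
        rfl }
  have hjinj : Function.Injective j := fun a b h => hι₁inj (Subtype.ext h)
  have hjR : ∀ r : R, j (algebraMap R B r) = r := fun r => by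
    change ((ι₁ (algebraMap R B r) : V) : K) = _
    rw [hι₁, hι]
  have hmn : m = n := by
    let a1 : Algebra B K := j.toRingHom.toAlgebra
    have hst1 : IsScalarTower k B K := IsScalarTower.of_algebraMap_eq' j.comp_algebraMap.symm
    have hfs : FaithfulSMul B K := (faithfulSMul_iff_algebraMap_injective B K).mpr hjinj
    have halg : Algebra.IsAlgebraic B K := by
      refine ⟨fun z => ?_⟩
      obtain ⟨a, ha, b, hb, hb0, rfl⟩ := hfr z
      rw [div_eq_mul_inv]
      have h1 : ∀ r ∈ R, IsAlgebraic B r := fun r hr => by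
        have h2 := isAlgebraic_algebraMap (A := K) (algebraMap R B ⟨r, hr⟩)
        have h3 : algebraMap B K (algebraMap R B ⟨r, hr⟩) = r := hjR ⟨r, hr⟩
        rwa [h3] at h2
      exact (h1 a ha).mul (h1 b hb).inv
    have h1 := trdeg_add_eq k B (A := K)
    have h2 : Algebra.trdeg k B = m := by
      have h3 : g' = MvPolynomial.aeval (fun i => g' (MvPolynomial.X i)) := by
        ext i
        simp
      have h4 : (MvPolynomial.aeval (fun i => g' (MvPolynomial.X i)) :
          MvPolynomial (Fin m) k →ₐ[k] B).toRingHom.Etale := by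
        rw [← h3]
        exact hg'
      exact (Pool.Agent.Y135.RF.trdeg_of_etale k p _ h4).1
    rw [trdeg_eq_zero (R := B) (A := K), add_zero, h2, hn] at h1
    exact_mod_cast h1
  subst hmn
  -- the chart
  let 𝔮 : Ideal B := (IsLocalRing.maximalIdeal V).comap ι₁
  have h𝔮 : 𝔮.IsPrime := Ideal.IsPrime.comap ι₁
  obtain ⟨h, g₀, P, hh, hg₀, hP1, hP2, hPF, ⟨ε⟩⟩ := exists_polys_at k p g' hg' 𝔮
  have hhu : IsUnit (ι₁ h) := by
    by_contra hu
    exact hh ((IsLocalRing.mem_maximalIdeal _).mpr hu)
  let ι₂ : Localization.Away h →+* V := IsLocalization.Away.lift h hhu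
  have hι₂ : ∀ b : B, ι₂ (algebraMap B _ b) = ι₁ b := fun b => IsLocalization.Away.lift_eq h _ b
  let Ψ₀ : AdjoinRoot P →+* V := ι₂.comp ε.toRingEquiv.toRingHom
  let Ψ : AdjoinRoot P →ₐ[k] K :=
    { V.subtype.comp Ψ₀ with
      commutes' := fun c => by
        change ((ι₂ (ε (algebraMap k (AdjoinRoot P) c)) : V) : K) = _
        rw [ε.commutes, IsScalarTower.algebraMap_apply k B (Localization.Away h), hι₂]
        exact j.commutes c }
  have hΨV : ∀ e, Ψ e ∈ V := fun e => (Ψ₀ e).2
  let x : Fin m → K := fun i => Ψ (algebraMap (MvPolynomial (Fin m) k) (AdjoinRoot P)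
    (MvPolynomial.X i))
  let z : K := Ψ (AdjoinRoot.root P)
  let w : K := Ψ (-(AdjoinRoot.mk P g₀))
  have hcA : CharP (MvPolynomial (Fin m) k) p :=
    charP_of_injective_algebraMap (MvPolynomial.C_injective (Fin m) k) p
  have hcK : CharP K p := charP_of_injective_algebraMap (algebraMap k K).injective p
  have hwz : w ^ p = z := by
    have h1 : AdjoinRoot.mk P (X + g₀ ^ p) = 0 := AdjoinRoot.mk_eq_zero.mpr hPF
    rw [map_add, map_pow, AdjoinRoot.mk_X] at h1
    have h2 : z + Ψ (AdjoinRoot.mk P g₀) ^ p = 0 := by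
      rw [← map_pow, ← map_add, h1, map_zero]
    have h3 : w ^ p = - (Ψ (AdjoinRoot.mk P g₀) ^ p) := by
      have h4 : (w + Ψ (AdjoinRoot.mk P g₀)) ^ p = 0 := by
        simp only [w, map_neg, neg_add_cancel]
        exact zero_pow (Fact.out : p.Prime).ne_zero
      rw [add_pow_char] at h4
      exact eq_neg_of_add_eq_zero_left h4
    rw [h3]
    exact (eq_neg_of_add_eq_zero_left h2).symm
  have hsub : ∀ e, Ψ e ∈ pring k x (w ^ p) := fun e => by
    rw [hwz]
    exact mem_of_adjoinRoot k P Ψ e
  have hle : pring k x (w ^ p) ≤ pring k x w := by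
    rw [Algebra.adjoin_le_iff]
    rintro y hy
    rcases Set.mem_insert_iff.mp hy with rfl | hy
    · exact pow_mem (Algebra.subset_adjoin (Set.mem_insert _ _)) p
    · exact Algebra.subset_adjoin (Set.mem_insert_of_mem _ hy)
  refine ⟨x, w, fun i => hΨV _, hΨV _, fun r hr => ?_, hsub _, ?_⟩
  · have h1 : Ψ (ε.symm (algebraMap B _ (algebraMap R B ⟨r, hr⟩))) = r := by
      change ((ι₂ (ε (ε.symm (algebraMap B _ (algebraMap R B ⟨r, hr⟩)))) : V) : K) = r
      rw [AlgEquiv.apply_symm_apply, hι₂, hι₁]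
      rfl
    rw [← h1]
    exact hle (hsub _)
  · have h1 : IsIntegral (MvPolynomial (Fin m) k) (-(AdjoinRoot.mk P g₀)) := by
      have h2 : Module.Finite (MvPolynomial (Fin m) k) (AdjoinRoot P) := hP1.finite_adjoinRoot
      exact Algebra.IsIntegral.isIntegral _
    obtain ⟨q, hq, hq0⟩ := h1
    have hmemx : ∀ a : MvPolynomial (Fin m) k, Ψ (algebraMap _ (AdjoinRoot P) a) ∈
        Algebra.adjoin k (Set.range x) := by
      intro a
      have h1 : Ψ (algebraMap (MvPolynomial (Fin m) k) (AdjoinRoot P) a) =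
          MvPolynomial.aeval x a := by
        have h2 : Ψ.comp (IsScalarTower.toAlgHom k (MvPolynomial (Fin m) k) (AdjoinRoot P)) =
            MvPolynomial.aeval x := by
          ext i
          simp [x]
        exact DFunLike.congr_fun h2 a
      rw [h1, ← MvPolynomial.aeval_range]
      exact ⟨_, rfl⟩
    let φ₀ : MvPolynomial (Fin m) k →+* Algebra.adjoin k (Set.range x) :=
      (Ψ.toRingHom.comp (algebraMap _ (AdjoinRoot P))).codRestrict _ hmemx
    refine ⟨q.map φ₀, hq.map _, ?_⟩
    rw [eval₂_map]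
    have h3 := hom_eval₂ q (algebraMap (MvPolynomial (Fin m) k) (AdjoinRoot P)) Ψ.toRingHom
      (-(AdjoinRoot.mk P g₀))
    rw [hq0, map_zero] at h3
    exact h3.symm

end Pool.Agent.H854.LU
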