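import Mathlib

set_option autoImplicit false

/-!
# Charts of smooth varieties in characteristic `p`, and local uniformization: the definitions
-/

open CategoryTheory AlgebraicGeometry

namespace Pool.Agent.H854.LU.Stm

/-- The hypersurface `P(x_1, ..., x_n, z) = 0` in the affine space of dimension `n + 1` over `k`. -/
noncomputable abbrev Hyp (k : Type) [Field k] (n : ℕ)
    (P : Polynomial (MvPolynomial (Fin n) k)) : Scheme.{0} :=
  Spec (.of (AdjoinRoot P))

/-- The structure morphism of the hypersurface. -/
noncomputable abbrev hypStr (k : Type) [Field k] (n : ℕ)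
    (P : Polynomial (MvPolynomial (Fin n) k)) : Hyp k n P ⟶ Spec (.of k) :=
  Spec.map (CommRingCat.ofHom (algebraMap k (AdjoinRoot P)))

/-- The irreducible polynomial `P(x,z)`, monic in `z`, divides `z + g(x,z) ^ p` for a polynomial
`g`, monic in `z`: the hypersurface `P = 0` is an irreducible component of the hypersurface
`z + g(x,z) ^ p = 0`. -/
structure IsComponent (p : ℕ) {k : Type} [Field k] {n : ℕ}
    (P : Polynomial (MvPolynomial (Fin n) k)) : Prop where
  monic : P.Monic
  irreducible : Irreducible P
  dvd : ∃ g : Polynomial (MvPolynomial (Fin n) k), g.Monic ∧ P ∣ Polynomial.X + g ^ p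

/-- The point `x` of the `k`-scheme `f : X ⟶ Spec k` has an open neighbourhood that is isomorphic
over `k` to the hypersurface `P = 0`. -/
def HasNeighbourhood {k : Type} [Field k] {n : ℕ} {X : Scheme.{0}} (f : X ⟶ Spec (.of k)) (x : X)
    (P : Polynomial (MvPolynomial (Fin n) k)) : Prop :=
  ∃ (U : X.Opens) (e : (U : Scheme.{0}) ≅ Hyp k n P), x ∈ U ∧ e.hom ≫ hypStr k n P = U.ι ≫ f

/-- The `k`-scheme `f : X ⟶ Spec k` has a resolution of singularities: there is an integral scheme
`Y`, smooth over `k`, with a proper morphism to `X` that is an isomorphism over a dense open subset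
of `X`. -/
def Resolvable {k : Type} [Field k] {X : Scheme.{0}} (f : X ⟶ Spec (.of k)) : Prop :=
  ∃ (Y : Scheme.{0}) (π : Y ⟶ X), IsIntegral Y ∧ IsProper π ∧ Smooth (π ≫ f) ∧
    ∃ U : X.Opens, Dense (U : Set X) ∧ IsIso (π ∣_ U)

section fields
variable (k : Type) {K : Type} [Field k] [Field K] [Algebra k K] {n : ℕ}

/-- The subring `k[x_1, ..., x_n, w]` of the field `K`. -/
def ring (x : Fin n → K) (w : K) : Subalgebra k K := Algebra.adjoin k (insert w (Set.range x))

/-- The elements `x_1, ..., x_n, w` of `K` form a chart over the subring `A` of `K`: the subring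
`k[x_1, ..., x_n, w]` contains `A`, and `w` is a polynomial in `x_1, ..., x_n, w ^ p` with
coefficients in `k`. -/
def IsChart (p : ℕ) (A : Subalgebra k K) (x : Fin n → K) (w : K) : Prop :=
  A ≤ ring k x w ∧ w ∈ ring k x (w ^ p)

/-- The chart `x_1, ..., x_n, w` is contained in the valuation ring `V`. -/
def InRing (V : ValuationSubring K) (x : Fin n → K) (w : K) : Prop := (∀ i, x i ∈ V) ∧ w ∈ V

/-- Local uniformization of the valuation ring `V` over `Spec A`: there is a smooth `k`-algebra `R`
with `A ⊆ R ⊆ V`. -/
def Uniformizable (A : Subalgebra k K) (V : ValuationSubring K) : Prop :=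
  ∃ R : Subalgebra k K, A ≤ R ∧ (R : Set K) ⊆ V ∧ Algebra.Smooth k R

end fields

end Pool.Agent.H854.LU.Stm
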