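import Pool.Agent.H854.LU.Res
import Pool.Agent.H854.LU.Defs

set_option autoImplicit false
set_option maxHeartbeats 1000000
set_option synthInstance.maxHeartbeats 400000

/-!
# Charts of smooth varieties in characteristic `p`, and local uniformization
-/

open CategoryTheory AlgebraicGeometry

namespace Pool.Agent.H854.LU

open Stm

theorem frac_of {k K : Type} [Field k] [Field K] [Algebra k K] {A : Subalgebra k K} (hA : IsFractionRing A K) : ∀ z : K, ∃ a ∈ A, ∃ b ∈ A, b ≠ 0 ∧ z = a / b := by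
  intro z
  obtain ⟨a, b, hb, h⟩ := IsFractionRing.div_surjective (A := A) z
  refine ⟨a, a.2, b, b.2, fun h0 => nonZeroDivisors.ne_zero hb (Subtype.ext h0), h.symm⟩

theorem IsChart.smooth {p : ℕ} [Fact p.Prime] {k K : Type} [Field k] [CharP k p] [Field K]
    [Algebra k K] {n : ℕ} {A : Subalgebra k K} (hn : Algebra.trdeg k K = n) (hA : IsFractionRing A K) {x : Fin n → K}
    {w : K} (h : IsChart k p A x w) : Algebra.Smooth k (ring k x w) := by
  refine smooth_pring p k K x w hn (fun z => ?_) h.2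
  obtain ⟨a, ha, b, hb, hb0, hz⟩ := frac_of hA z
  exact ⟨a, h.1 ha, b, h.1 hb, hb0, hz⟩

theorem ring_le {k K : Type} [Field k] [Field K] [Algebra k K] {n : ℕ} {A : Subalgebra k K}
    {x : Fin n → K} {w : K} {V : ValuationSubring K} (h : InRing V x w) (hA : (A : Set K) ⊆ V) :
    (ring k x w : Set K) ⊆ V := by
  intro y hy
  have hk : ∀ c : k, algebraMap k K c ∈ V := fun c => hA (A.algebraMap_mem c)
  induction hy using Algebra.adjoin_induction with
  | mem y hy =>
    rcases Set.mem_insert_iff.mp hy with rfl | ⟨i, rfl⟩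
    · exact h.2
    · exact h.1 i
  | algebraMap r => exact hk r
  | add y y' _ _ hy hy' => exact V.add_mem _ _ hy hy'
  | mul y y' _ _ hy hy' => exact V.mul_mem _ _ hy hy'

section fields
variable {p : ℕ} [Fact p.Prime] {k K : Type} [Field k] [Infinite k] [CharP k p] [Field K]
  [Algebra k K] {n : ℕ} {A : Subalgebra k K}

theorem chart_of_uniformizable (hn : Algebra.trdeg k K = n) (hA : IsFractionRing A K)
    {V : ValuationSubring K} (h : Uniformizable k A V) :
    ∃ (x : Fin n → K) (w : K), InRing V x w ∧ IsChart k p A x w ∧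
      IsIntegral (Algebra.adjoin k (Set.range x)) w := by
  obtain ⟨R, hAR, hRV, hR⟩ := h
  obtain ⟨x, w, h1, h2, h3, h4, h5⟩ := exists_pring p k K R (fun z => by
    obtain ⟨a, ha, b, hb, hb0, hz⟩ := frac_of hA z
    exact ⟨a, hAR ha, b, hAR hb, hb0, hz⟩) n hn V (fun r hr => hRV hr)
  exact ⟨x, w, ⟨h1, h2⟩, ⟨hAR.trans h3, h4⟩, h5⟩

theorem uniformizable_iff (hn : Algebra.trdeg k K = n) (hA : IsFractionRing A K)
    {V : ValuationSubring K} (hAV : (A : Set K) ⊆ V) :
    Uniformizable k A V ↔ ∃ (x : Fin n → K) (w : K), InRing V x w ∧ IsChart k p A x w := by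
  constructor
  · intro h
    obtain ⟨x, w, h1, h2, -⟩ := chart_of_uniformizable (p := p) hn hA h
    exact ⟨x, w, h1, h2⟩
  · rintro ⟨x, w, h1, h2⟩
    exact ⟨ring k x w, h2.1, ring_le h1 hAV, IsChart.smooth hn hA h2⟩

theorem finite_system_iff (hn : Algebra.trdeg k K = n) (hA : IsFractionRing A K) :
    (∀ V : ValuationSubring K, (A : Set K) ⊆ V → Uniformizable k A V) ↔
      ∃ (N : ℕ) (x : Fin N → Fin n → K) (w : Fin N → K), (∀ j, IsChart k p A (x j) (w j)) ∧
        ∀ V : ValuationSubring K, (A : Set K) ⊆ V → ∃ j, InRing V (x j) (w j) := by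
  classical
  constructor
  · intro h
    let ι : Type := {q : (Fin n → K) × K // IsChart k p A q.1 q.2}
    let S : ι → Finset K := fun q => insert q.1.2 (Finset.univ.image q.1.1)
    have hS : ∀ (q : ι) (V : ValuationSubring K), (∀ s ∈ S q, s ∈ V) ↔ InRing V q.1.1 q.1.2 := by
      intro q V
      constructor
      · intro hq
        exact ⟨fun i => hq _ (by simp [S]), hq _ (by simp [S])⟩
      · rintro ⟨h1, h2⟩ s hs
        rcases Finset.mem_insert.mp hs with rfl | hs
        · exact h2
        · obtain ⟨i, -, rfl⟩ := Finset.mem_image.mp hs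
          exact h1 i
    obtain ⟨T, hT⟩ := exists_finite_cover (A : Set K) S (fun V hV => by
      obtain ⟨x, w, h1, h2⟩ := (uniformizable_iff (p := p) hn hA hV).mp (h V hV)
      exact ⟨⟨(x, w), h2⟩, (hS ⟨(x, w), h2⟩ V).mpr h1⟩)
    let e := T.equivFin
    refine ⟨T.card, fun j => (e.symm j).1.1.1, fun j => (e.symm j).1.1.2,
      fun j => (e.symm j).1.2, fun V hV => ?_⟩
    obtain ⟨q, hq, hs⟩ := hT V hV
    refine ⟨e ⟨q, hq⟩, ?_⟩
    have h1 : e.symm (e ⟨q, hq⟩) = ⟨q, hq⟩ := e.symm_apply_apply _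
    change InRing V (e.symm (e ⟨q, hq⟩)).1.1.1 (e.symm (e ⟨q, hq⟩)).1.1.2
    rw [h1]
    exact (hS q V).mp hs
  · rintro ⟨N, x, w, hx, hV⟩ V hAV
    obtain ⟨j, hj⟩ := hV V hAV
    exact (uniformizable_iff (p := p) hn hA hAV).mpr ⟨x j, w j, hj, hx j⟩

end fields

theorem uniformizable_of_resolvable {k K : Type} [Field k] [Field K] [Algebra k K]
    {A : Subalgebra k K} (h : Stm.Resolvable (Spec.map (CommRingCat.ofHom (algebraMap k A))))
    {V : ValuationSubring K} (hV : (A : Set K) ⊆ V) : Uniformizable k A V := by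
  obtain ⟨R, h1, h2, h3⟩ := exists_smooth_of_resolvable k K A V (fun a ha => hV ha) h
  exact ⟨R, h1, fun r hr => h2 r hr, h3⟩

theorem smooth_iff_charts (p : ℕ) [Fact p.Prime] (k : Type) [Field k] [Infinite k] [CharP k p]
    (n : ℕ) (X : Scheme.{0}) [IsIntegral X] (f : X ⟶ Spec (.of k)) :
    SmoothOfRelativeDimension n f ↔ ∀ x : X, ∃ P : Polynomial (MvPolynomial (Fin n) k),
      Stm.IsComponent p P ∧ HasNeighbourhood f x P := by
  constructor
  · intro hf x
    obtain ⟨g, P, j, hg, hP1, hP2, hPg, hj, hjf, hx⟩ := exists_hypersurface_at p n k X f x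
    refine ⟨P, ⟨hP1, hP2, g, hg, hPg⟩, j.opensRange, j.isoOpensRange.symm, hx, ?_⟩
    have hjf' : j ≫ f = Stm.hypStr k n P := hjf
    rw [← hjf', ← Category.assoc]
    congr 1
    rw [Iso.symm_hom, Iso.inv_comp_eq]
    exact (j.isoOpensRange_hom_ι).symm
  · intro h
    choose P hP U e hx he using h
    have hU : ⨆ x, U x = ⊤ := by
      ext y
      simp only [TopologicalSpace.Opens.coe_iSup, Set.mem_iUnion, TopologicalSpace.Opens.coe_top,
        Set.mem_univ, iff_true]
      exact ⟨y, hx y⟩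
    have key : ∀ x, SmoothOfRelativeDimension n ((U x).ι ≫ f) := by
      intro x
      obtain ⟨g, -, hg⟩ := (hP x).dvd
      have hc : CharP (MvPolynomial (Fin n) k) p :=
        charP_of_injective_algebraMap (MvPolynomial.C_injective (Fin n) k) p
      have h1 : FE.IsVar n (HF.hypStr k n (P x)) := HF.isVar_hyp k n (hP x).monic
        (hP x).irreducible (HF.isCoprime_of_dvd (HF.derivative_add_pow p g) hg)
      have h2 : SmoothOfRelativeDimension n (Stm.hypStr k n (P x)) := h1.smooth
      rw [← he x]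
      have h3 : SmoothOfRelativeDimension (0 + n) ((e x).hom ≫ Stm.hypStr k n (P x)) :=
        inferInstance
      rwa [zero_add] at h3
    have hrhp : HasRingHomProperty (@SmoothOfRelativeDimension.{0} n)
      (RingHom.Locally (RingHom.IsStandardSmoothOfRelativeDimension n)) := inferInstance
    have hloc : IsZariskiLocalAtSource (@SmoothOfRelativeDimension.{0} n) :=
      @HasRingHomProperty.instIsZariskiLocalAtSource _ _ hrhp
    exact IsZariskiLocalAtSource.of_iSup_eq_top (P := @SmoothOfRelativeDimension n) U hU key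

end Pool.Agent.H854.LU
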