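import Pool.Agent.H854.LU.Crit
import Pool.Agent.H854.LU.Compact

set_option autoImplicit false
set_option maxHeartbeats 1000000
set_option synthInstance.maxHeartbeats 400000

/-!
# Resolutions of singularities and smooth subrings of valuation rings
-/

open CategoryTheory AlgebraicGeometry

namespace Pool.Agent.H854.LU

/-- `X` has a resolution of singularities over `k`. -/
def Resolvable {k : Type} [Field k] {X : Scheme.{0}} (f : X ⟶ Spec (.of k)) : Prop :=
  ∃ (Y : Scheme.{0}) (π : Y ⟶ X), IsIntegral Y ∧ IsProper π ∧ Smooth (π ≫ f) ∧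
    ∃ U : X.Opens, Dense (U : Set X) ∧ IsIso (π ∣_ U)

theorem isDominant_spec {R K : Type} [CommRing R] [Field K] (f : R →+* K)
    (hf : Function.Injective f) : IsDominant (Spec.map (CommRingCat.ofHom f)) := by
  refine ⟨?_⟩
  have h1 : DenseRange (PrimeSpectrum.comap f) := by
    rw [PrimeSpectrum.denseRange_comap_iff_ker_le_nilRadical,
      (RingHom.injective_iff_ker_eq_bot f).1 hf]
    exact bot_le
  exact h1

theorem range_subset_of_dominant {K : Type} [Field K] {X : Scheme.{0}} (ξ : Spec (.of K) ⟶ X)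
    [IsDominant ξ] (U : X.Opens) (hU : (U : Set X).Nonempty) : Set.range ξ ⊆ (U : Set X) := by
  obtain ⟨y, hy⟩ := ξ.denseRange.exists_mem_open U.isOpen hU
  have hs : Subsingleton (Spec (.of K)) := inferInstanceAs (Subsingleton (PrimeSpectrum K))
  rintro _ ⟨z, rfl⟩
  rw [Subsingleton.elim z y]
  exact hy

/-- If `Spec A` has a resolution of singularities, then every valuation ring of the field of
fractions `K` that contains `A` contains a smooth `k`-algebra that contains `A`. -/
theorem exists_smooth_of_resolvable (k K : Type) [Field k] [Field K] [Algebra k K]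
    (A : Subalgebra k K) (V : ValuationSubring K) (hV : ∀ a ∈ A, a ∈ V)
    (h : Resolvable (Spec.map (CommRingCat.ofHom (algebraMap k A)))) :
    ∃ R : Subalgebra k K, A ≤ R ∧ (∀ r ∈ R, r ∈ V) ∧ Algebra.Smooth k R := by
  obtain ⟨Y, π, hY, hπ, hsm, U, hU, hiso⟩ := h
  let X : Scheme.{0} := Spec (.of A)
  let f : X ⟶ Spec (.of k) := Spec.map (CommRingCat.ofHom (algebraMap k A))
  let vA : A →+* K := A.val.toRingHom
  have hvA : Function.Injective vA := Subtype.val_injective
  let ξ : Spec (.of K) ⟶ X := Spec.map (CommRingCat.ofHom vA)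
  have hξ : IsDominant ξ := isDominant_spec vA hvA
  have hXne : Nonempty X := inferInstanceAs (Nonempty (PrimeSpectrum A))
  have hUne : (U : Set X).Nonempty := hU.nonempty
  have hrange : Set.range ξ ⊆ Set.range U.ι := by
    rw [Scheme.Opens.range_ι]
    exact range_subset_of_dominant ξ U hUne
  let ξU : Spec (.of K) ⟶ U.toScheme := IsOpenImmersion.lift U.ι ξ hrange
  have hξU : ξU ≫ U.ι = ξ := IsOpenImmersion.lift_fac U.ι ξ hrange
  have hdU : IsDominant ξU := by
    have : IsDominant (ξU ≫ U.ι) := by rw [hξU]; exact hξ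
    exact IsDominant.of_comp_of_isOpenImmersion ξU U.ι
  let σ := π ∣_ U
  let ξY : Spec (.of K) ⟶ Y := ξU ≫ inv σ ≫ (π ⁻¹ᵁ U).ι
  have hξY : ξY ≫ π = ξ := by
    simp only [ξY, Category.assoc]
    rw [← morphismRestrict_ι, IsIso.inv_hom_id_assoc, hξU]
  have hdY : IsDominant ξY := by
    have h1 : IsDominant (π ⁻¹ᵁ U).ι := by
      refine Opens.isDominant_ι ?_
      have h2 : ((π ⁻¹ᵁ U : Y.Opens) : Set Y).Nonempty := by
        obtain ⟨x, hx⟩ := hUne
        let y := (inv σ) ⟨x, hx⟩
        exact ⟨y.1, y.2⟩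
      exact (π ⁻¹ᵁ U).isOpen.dense h2
    infer_instance
  -- the valuative criterion
  let η : Spec (.of V) ⟶ X := Spec.map (CommRingCat.ofHom
    (vA.codRestrict V.toSubring (fun a => hV a a.2)))
  have hsq : ξY ≫ π = Spec.map (CommRingCat.ofHom (algebraMap V K)) ≫ η := by
    rw [hξY, ← Spec.map_comp, ← CommRingCat.ofHom_comp]
    rfl
  have hex : ValuativeCriterion.Existence π := by
    have h1 : UniversallyClosed π := inferInstance
    rw [UniversallyClosed.eq_valuativeCriterion] at h1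
    exact h1.1
  let S : ValuativeCommSq π :=
    { R := V
      K := K
      i₁ := ξY
      i₂ := η
      commSq := ⟨hsq⟩ }
  obtain ⟨l, hl1, hl2⟩ : ∃ l : Spec (.of V) ⟶ Y,
      Spec.map (CommRingCat.ofHom (algebraMap V K)) ≫ l = ξY ∧ l ≫ π = η := by
    obtain ⟨⟨l, hl1, hl2⟩⟩ := (hex S).exists_lift
    exact ⟨l, hl1, hl2⟩
  -- an affine neighbourhood of the centre
  let c : Spec (.of V) := IsLocalRing.closedPoint V
  obtain ⟨W, hW, hcW, -⟩ := exists_isAffineOpen_mem_and_subset (x := l c) (U := ⊤) trivial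
  have hpre : l ⁻¹ᵁ W = ⊤ := (IsLocalRing.closedPoint_mem_iff (R := V) (l ⁻¹ᵁ W)).mp hcW
  have hle : (⊤ : (Spec (.of V)).Opens) ≤ l ⁻¹ᵁ W := hpre.ge
  let φV : Γ(Y, W) →+* V := ((l.appLE W ⊤ hle) ≫ (Scheme.ΓSpecIso (.of V)).hom).hom
  have hφV : Spec.map (CommRingCat.ofHom φV) ≫ hW.fromSpec = l := by
    have h1 : CommRingCat.ofHom φV = (l.appLE W ⊤ hle) ≫ (Scheme.ΓSpecIso (.of V)).hom := rfl
    rw [h1, Spec.map_comp, Category.assoc, hW.SpecMap_appLE_fromSpec l (isAffineOpen_top _) hle,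
      IsAffineOpen.fromSpec_top, Scheme.isoSpec_Spec_inv, ← Category.assoc, ← Spec.map_comp,
      Iso.inv_hom_id]
    simp
  let φK : Γ(Y, W) →+* K := (algebraMap V K).comp φV
  have hφK : Spec.map (CommRingCat.ofHom φK) ≫ hW.fromSpec = ξY := by
    rw [← hl1, ← hφV, ← Category.assoc, ← Spec.map_comp, ← CommRingCat.ofHom_comp]
  have hinj : Function.Injective φK := by
    rw [injective_iff_map_eq_zero]
    intro a ha
    by_contra ha0
    have h1 : ((Y.basicOpen a : Y.Opens) : Set Y).Nonempty := by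
      rw [Set.nonempty_iff_ne_empty]
      intro h2
      have h3 : Y.basicOpen a = ⊥ := TopologicalSpace.Opens.ext h2
      exact ha0 ((basicOpen_eq_bot_iff a).mp h3)
    let pt : Spec (.of K) := IsLocalRing.closedPoint K
    have h4 : ξY pt ∈ Y.basicOpen a := range_subset_of_dominant ξY _ h1 ⟨pt, rfl⟩
    rw [← hφK] at h4
    have h5 : (Spec.map (CommRingCat.ofHom φK)) pt ∈ hW.fromSpec ⁻¹ᵁ (Y.basicOpen a) := h4
    rw [hW.fromSpec_preimage_basicOpen] at h5
    have h6 : a ∉ (PrimeSpectrum.comap φK pt).asIdeal := h5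
    apply h6
    rw [PrimeSpectrum.comap_asIdeal, Ideal.mem_comap, ha]
    exact Ideal.zero_mem _
  -- the structure of a `k`-algebra
  let cc : k ≃+* Γ(Spec (.of k), ⊤) :=
    (Scheme.ΓSpecIso (.of k)).symm.commRingCatIsoToRingEquiv
  let g := π ≫ f
  have e : W ≤ g ⁻¹ᵁ ⊤ := le_top
  let str : k →+* Γ(Y, W) := (g.appLE ⊤ W e).hom.comp (cc : k →+* _)
  have hstr : Spec.map (CommRingCat.ofHom str) = hW.fromSpec ≫ g := by
    have h5 := (isAffineOpen_top (Spec (.of k))).SpecMap_appLE_fromSpec g hW e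
    rw [IsAffineOpen.fromSpec_top, Scheme.isoSpec_Spec_inv] at h5
    have h6 : Spec.map (CommRingCat.ofHom str) =
      Spec.map (g.appLE ⊤ W e) ≫ Spec.map (Scheme.ΓSpecIso (.of k)).inv := by
      rw [← Spec.map_comp]
      rfl
    rw [h6, h5]
  have hstrsm : str.Smooth := by
    have h1 : (g.appLE ⊤ W e).hom.Smooth :=
      HasRingHomProperty.appLE @Smooth g hsm ⟨⊤, isAffineOpen_top _⟩ ⟨W, hW⟩ e
    have h2 : (cc : k →+* Γ(Spec (.of k), ⊤)).Smooth := RingHom.Smooth.of_bijective cc.bijective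
    exact h2.comp h1
  let a1 : Algebra k Γ(Y, W) := str.toAlgebra
  have hsm' : Algebra.Smooth k Γ(Y, W) := hstrsm
  have hcomm : φK.comp str = algebraMap k K := by
    have h1 : Spec.map (CommRingCat.ofHom (φK.comp str)) =
        Spec.map (CommRingCat.ofHom (algebraMap k K)) := by
      rw [CommRingCat.ofHom_comp, Spec.map_comp, hstr, ← Category.assoc, hφK]
      change ξY ≫ π ≫ f = _
      rw [← Category.assoc, hξY, ← Spec.map_comp, ← CommRingCat.ofHom_comp]
      rfl
    exact congrArg CommRingCat.Hom.hom (Spec.map_injective h1)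
  let j : Γ(Y, W) →ₐ[k] K := { φK with commutes' := fun r => RingHom.congr_fun hcomm r }
  -- the map from `A`
  let α : A →+* Γ(Y, W) := (Spec.preimage (hW.fromSpec ≫ π)).hom
  have hα : φK.comp α = vA := by
    have h1 : Spec.map (CommRingCat.ofHom (φK.comp α)) = Spec.map (CommRingCat.ofHom vA) := by
      rw [CommRingCat.ofHom_comp, Spec.map_comp]
      have h2 : Spec.map (CommRingCat.ofHom α) = hW.fromSpec ≫ π :=
        Spec.map_preimage (hW.fromSpec ≫ π)
      rw [h2, ← Category.assoc, hφK, hξY]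
    exact congrArg CommRingCat.Hom.hom (Spec.map_injective h1)
  refine ⟨j.range, fun a ha => ⟨α ⟨a, ha⟩, ?_⟩, ?_, ?_⟩
  · exact RingHom.congr_fun hα ⟨a, ha⟩
  · rintro _ ⟨b, rfl⟩
    exact (φV b).2
  · exact Algebra.Smooth.of_equiv (AlgEquiv.ofInjective j hinj)

end Pool.Agent.H854.LU
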