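import Pool.Agent.H854.HF.Gen

set_option autoImplicit false
set_option maxHeartbeats 1000000

/-!
# Finite unramified algebras are generated by one element near a point of the base
-/

open Polynomial TensorProduct

namespace Pool.Agent.H854.LU

theorem finite_algHom (A B Ω : Type) [CommRing A] [CommRing B] [Field Ω] [Algebra A B]
    [Algebra A Ω] [Module.Finite A B] : Finite (B →ₐ[A] Ω) := by
  classical
  obtain ⟨n, s, hs⟩ := Module.Finite.exists_fin (R := A) (M := B)
  have hint : ∀ b : B, IsIntegral A b := fun b => Algebra.IsIntegral.isIntegral b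
  choose P hP hPb using hint
  let R : Fin n → Finset Ω := fun i => ((P (s i)).map (algebraMap A Ω)).roots.toFinset
  have hmem : ∀ (σ : B →ₐ[A] Ω) (i : Fin n), σ (s i) ∈ R i := by
    intro σ i
    simp only [R, Multiset.mem_toFinset]
    rw [mem_roots ((hP (s i)).map _).ne_zero, IsRoot.def, eval_map]
    have h1 : eval₂ (algebraMap A Ω) (σ (s i)) (P (s i)) =
        σ (eval₂ (algebraMap A B) (s i) (P (s i))) := by
      have h2 := hom_eval₂ (P (s i)) (algebraMap A B) σ.toRingHom (s i)
      have h3 : σ.toRingHom.comp (algebraMap A B) = algebraMap A Ω := σ.comp_algebraMap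
      rw [h3] at h2
      exact h2.symm
    rw [h1, hPb, map_zero]
  let F : (B →ₐ[A] Ω) → ∀ i : Fin n, R i := fun σ i => ⟨σ (s i), hmem σ i⟩
  refine Finite.of_injective F fun σ τ h => ?_
  have h1 : ∀ i, σ (s i) = τ (s i) := fun i => congrArg Subtype.val (congrFun h i)
  have h2 : σ.toLinearMap = τ.toLinearMap := by
    refine LinearMap.ext_on_range hs fun i => h1 i
  exact AlgHom.toLinearMap_injective h2

theorem exists_separating (k A B Ω : Type) [Field k] [Infinite k] [CommRing A] [CommRing B]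
    [Field Ω] [Algebra k A] [Algebra k B] [Algebra A B] [IsScalarTower k A B] [Algebra A Ω]
    [Module.Finite A B] : ∃ b : B, ∀ σ τ : B →ₐ[A] Ω, σ b = τ b → σ = τ := by
  classical
  obtain ⟨n, s, hs⟩ := Module.Finite.exists_fin (R := A) (M := B)
  have hfin := finite_algHom A B Ω
  have hft : Fintype (B →ₐ[A] Ω) := Fintype.ofFinite _
  let ψ : k →+* Ω := (algebraMap A Ω).comp (algebraMap k A)
  have hψ : Function.Injective ψ := ψ.injective
  let G : (B →ₐ[A] Ω) × (B →ₐ[A] Ω) → Polynomial Ω := fun q =>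
    ∑ i : Fin n, C (q.1 (s i) - q.2 (s i)) * X ^ (i : ℕ)
  have hG : ∀ q : (B →ₐ[A] Ω) × (B →ₐ[A] Ω), q.1 ≠ q.2 → G q ≠ 0 := by
    intro q hq h0
    refine hq (AlgHom.toLinearMap_injective (LinearMap.ext_on_range hs fun i => ?_))
    have h1 : (G q).coeff (i : ℕ) = 0 := by rw [h0, coeff_zero]
    have h2 : (G q).coeff (i : ℕ) = q.1 (s i) - q.2 (s i) := by
      simp only [G, finsetSum_coeff, coeff_C_mul, coeff_X_pow]
      rw [Finset.sum_eq_single i]
      · simp
      · intro j _ hj
        rw [if_neg, mul_zero]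
        exact fun h => hj (Fin.ext h.symm)
      · intro h
        exact absurd (Finset.mem_univ i) h
    rw [h2] at h1
    exact sub_eq_zero.mp h1
  let H : Polynomial Ω := ∏ q ∈ Finset.univ.filter
    (fun q : (B →ₐ[A] Ω) × (B →ₐ[A] Ω) => q.1 ≠ q.2), G q
  have hH : H ≠ 0 := Finset.prod_ne_zero_iff.mpr fun q hq => hG q (Finset.mem_filter.mp hq).2
  obtain ⟨c, hc⟩ : ∃ c : k, eval (ψ c) H ≠ 0 := by
    by_contra hcon
    push Not at hcon
    refine hH (eq_zero_of_infinite_isRoot H ((Set.infinite_range_of_injective hψ).mono ?_))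
    rintro _ ⟨c, rfl⟩
    exact hcon c
  refine ⟨∑ i : Fin n, c ^ (i : ℕ) • s i, fun σ τ h => ?_⟩
  by_contra hne
  refine hc ?_
  have h1 : ∀ σ : B →ₐ[A] Ω, σ (∑ i : Fin n, c ^ (i : ℕ) • s i) =
      ∑ i : Fin n, ψ c ^ (i : ℕ) * σ (s i) := by
    intro σ
    rw [map_sum]
    refine Finset.sum_congr rfl fun i _ => ?_
    have h2 : c ^ (i : ℕ) • s i = algebraMap A B (algebraMap k A c ^ (i : ℕ)) * s i := by
      rw [Algebra.smul_def, IsScalarTower.algebraMap_apply k A B, ← map_pow, map_pow]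
    rw [h2, map_mul, AlgHom.commutes, map_pow]
    rfl
  have h3 : eval (ψ c) (G (σ, τ)) = 0 := by
    have h4 := sub_eq_zero.mpr h
    rw [h1, h1, ← Finset.sum_sub_distrib] at h4
    simp only [G, eval_finsetSum, eval_mul, eval_C, eval_pow, eval_X]
    rw [← h4]
    refine Finset.sum_congr rfl fun i _ => ?_
    ring
  simp only [H, eval_prod]
  exact Finset.prod_eq_zero (Finset.mem_filter.mpr ⟨Finset.mem_univ (σ, τ), hne⟩) h3

theorem exists_sep_elem (k A B : Type) [Field k] [Infinite k] [CommRing A] [CommRing B]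
    [Algebra k A] [Algebra k B] [Algebra A B] [IsScalarTower k A B]
    [Module.Finite A B] (t : B ⊗[A] B) (ht : Algebra.TensorProduct.lmul' A t = 1)
    (𝔭 : Ideal A) [𝔭.IsPrime] :
    ∃ (b : B) (h : A) (α β : B ⊗[A] B), h ∉ 𝔭 ∧
      algebraMap A (B ⊗[A] B) h = α * (b ⊗ₜ 1 - 1 ⊗ₜ b) + β * t := by
  classical
  let Ω := AlgebraicClosure (FractionRing (A ⧸ 𝔭))
  obtain ⟨b, hb⟩ := exists_separating k A B Ω
  let I : Ideal (B ⊗[A] B) := Ideal.span {b ⊗ₜ 1 - 1 ⊗ₜ b, t}
  have hI : ¬ I.comap (algebraMap A (B ⊗[A] B)) ≤ 𝔭 := by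
    intro hle
    obtain ⟨Q, hQI, hQ, hQp⟩ := Ideal.exists_ideal_over_prime_of_isIntegral 𝔭 I hle
    let S := (B ⊗[A] B) ⧸ Q
    let a1 : Algebra (A ⧸ 𝔭) S := Ideal.Quotient.algebraQuotientOfLEComap hQp.ge
    have hst : IsScalarTower A (A ⧸ 𝔭) S := IsScalarTower.of_algebraMap_eq' rfl
    have hinj : Function.Injective (algebraMap (A ⧸ 𝔭) S) := by
      rw [injective_iff_map_eq_zero]
      intro x hx
      obtain ⟨a, rfl⟩ := Ideal.Quotient.mk_surjective x
      have h1 : algebraMap (A ⧸ 𝔭) S (Ideal.Quotient.mk 𝔭 a) =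
        Ideal.Quotient.mk Q (algebraMap A (B ⊗[A] B) a) := rfl
      rw [h1, Ideal.Quotient.eq_zero_iff_mem] at hx
      rw [Ideal.Quotient.eq_zero_iff_mem, ← hQp]
      exact hx
    have hf : FaithfulSMul (A ⧸ 𝔭) S := (faithfulSMul_iff_algebraMap_injective _ _).mpr hinj
    have hf2 : FaithfulSMul (A ⧸ 𝔭) Ω := by
      rw [faithfulSMul_iff_algebraMap_injective,
        IsScalarTower.algebraMap_eq (A ⧸ 𝔭) (FractionRing (A ⧸ 𝔭)) Ω]
      exact (FaithfulSMul.algebraMap_injective (FractionRing (A ⧸ 𝔭)) Ω).comp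
        (IsFractionRing.injective (A ⧸ 𝔭) (FractionRing (A ⧸ 𝔭)))
    have hint : Algebra.IsIntegral A S := inferInstance
    have hint2 : Algebra.IsIntegral (A ⧸ 𝔭) S := Algebra.IsIntegral.tower_top (R := A)
    have halg : Algebra.IsAlgebraic (A ⧸ 𝔭) S := inferInstance
    have hdom : IsDomain S := Ideal.Quotient.isDomain Q
    have htf : Module.IsTorsionFree (A ⧸ 𝔭) S := .trans_faithfulSMul (A ⧸ 𝔭) S S
    let φ : S →ₐ[A ⧸ 𝔭] Ω := IsAlgClosed.lift
    let Φ : B ⊗[A] B →ₐ[A] Ω := (φ.restrictScalars A).comp (Ideal.Quotient.mkₐ A Q)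
    have hΦI : ∀ x ∈ I, Φ x = 0 := by
      intro x hx
      have h1 : Ideal.Quotient.mk Q x = 0 := Ideal.Quotient.eq_zero_iff_mem.mpr (hQI hx)
      change φ (Ideal.Quotient.mk Q x) = 0
      rw [h1, map_zero]
    let σ : B →ₐ[A] Ω := Φ.comp Algebra.TensorProduct.includeLeft
    let τ : B →ₐ[A] Ω := Φ.comp Algebra.TensorProduct.includeRight
    have h2 : σ = τ := by
      refine hb σ τ ?_
      have h3 := hΦI _ (Ideal.subset_span (Set.mem_insert _ _))
      rw [map_sub, sub_eq_zero] at h3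
      exact h3
    have h4 : Φ = σ.comp (Algebra.TensorProduct.lmul' A) := by
      ext x
      · simp [σ]
      · have h5 := DFunLike.congr_fun h2 x
        simp only [AlgHom.comp_apply, Algebra.TensorProduct.includeRight_apply,
          AlgHom.restrictScalars_apply,
          Algebra.TensorProduct.lmul'_apply_tmul, one_mul]
        rw [h5]
        rfl
    have h6 := hΦI _ (Ideal.subset_span (Set.mem_insert_of_mem _ (Set.mem_singleton _)))
    rw [h4, AlgHom.comp_apply, ht, map_one] at h6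
    exact one_ne_zero h6
  obtain ⟨h, hhI, hh⟩ := Set.not_subset.mp hI
  obtain ⟨α, β, hαβ⟩ := Ideal.mem_span_pair.mp (Ideal.mem_comap.mp hhI)
  exact ⟨b, h, α, β, hh, hαβ.symm⟩

/-- A finite unramified domain is generated by one element after a localization which does not
change a given point of the base. -/
theorem exists_generator_at (k A B : Type) [Field k] [Infinite k] [CommRing A] [CommRing B]
    [Algebra k A] [Algebra k B] [Algebra A B] [IsScalarTower k A B]
    [Module.Finite A B] [Algebra.FormallyUnramified A B] (𝔭 : Ideal A) [𝔭.IsPrime] :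
    ∃ (h : A) (z : Localization.Away (algebraMap A B h)), h ∉ 𝔭 ∧
      Algebra.adjoin A {z} = ⊤ := by
  classical
  obtain ⟨t, ht1, ht2⟩ := Algebra.FormallyUnramified.iff_exists_tensorProduct.mp
    (inferInstance : Algebra.FormallyUnramified A B)
  obtain ⟨b, h, α, β, hh, hαβ⟩ := exists_sep_elem k A B t ht2 𝔭
  let C := Localization.Away (algebraMap A B h)
  let u : C := IsLocalization.Away.invSelf (algebraMap A B h)
  have hu : algebraMap A C h * u = 1 := by
    rw [IsScalarTower.algebraMap_apply A B C]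
    exact IsLocalization.Away.mul_invSelf _
  let z : C := algebraMap B C b + u
  refine ⟨h, z, hh, ?_⟩
  let S : Subalgebra A C := Algebra.adjoin A {z}
  have hz : z ∈ S := Algebra.subset_adjoin rfl
  have hui : IsIntegral S u := by
    have h1 : u = algebraMap S C ⟨z, hz⟩ - algebraMap B C b := by
      change u = z - algebraMap B C b
      simp [z]
    rw [h1]
    refine isIntegral_algebraMap.sub ?_
    have h2 : IsIntegral A (algebraMap B C b) :=
      (Algebra.IsIntegral.isIntegral b).algebraMap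
    exact h2.tower_top
  have huS : u ∈ S := by
    obtain ⟨s, hs⟩ := HF.mem_of_inv_integral (algebraMap A S h) u hui
      (by rw [← IsScalarTower.algebraMap_apply A S C]; exact hu)
    rw [← hs]
    exact s.2
  have hbS : algebraMap B C b ∈ S := by
    have : algebraMap B C b = z - u := by simp [z]
    rw [this]
    exact sub_mem hz huS
  have hdec : ∀ c : C, ∃ (n : ℕ) (a : B), c = algebraMap B C a * u ^ n := by
    intro c
    obtain ⟨n, a, hc⟩ := IsLocalization.Away.surj (algebraMap A B h) c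
    refine ⟨n, a, ?_⟩
    rw [← hc, mul_assoc, ← IsScalarTower.algebraMap_apply A B C, ← mul_pow, hu, one_pow, mul_one]
  have hfin : Module.Finite S C := by
    obtain ⟨m, s, hs⟩ := Module.Finite.exists_fin (R := A) (M := B)
    refine ⟨⟨Finset.univ.image (fun i => algebraMap B C (s i)), ?_⟩⟩
    rw [eq_top_iff]
    rintro c -
    obtain ⟨n, a, rfl⟩ := hdec c
    have h1 : ∀ a : B, algebraMap B C a ∈ Submodule.span S
        ((Finset.univ.image (fun i => algebraMap B C (s i)) : Finset C) : Set C) := by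
      intro a
      have ha : a ∈ Submodule.span A (Set.range s) := hs ▸ trivial
      induction ha using Submodule.span_induction with
      | mem x hx =>
        obtain ⟨i, rfl⟩ := hx
        exact Submodule.subset_span (by simp)
      | zero =>
        rw [map_zero]
        exact zero_mem _
      | add x y _ _ hx hy =>
        rw [map_add]
        exact add_mem hx hy
      | smul r x _ hx =>
        have h2 : algebraMap B C (r • x) = (algebraMap A S r) • algebraMap B C x := by
          rw [Algebra.smul_def, map_mul, ← IsScalarTower.algebraMap_apply A B C, Algebra.smul_def,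
            ← IsScalarTower.algebraMap_apply A S C]
        rw [h2]
        exact Submodule.smul_mem _ _ hx
    have h3 : algebraMap B C a * u ^ n = (⟨u ^ n, pow_mem huS n⟩ : S) • algebraMap B C a := by
      rw [Algebra.smul_def, mul_comm]
      rfl
    rw [h3]
    exact Submodule.smul_mem _ _ (h1 a)
  have hepi : Algebra.IsEpi S C := by
    rw [Algebra.isEpi_iff_forall_one_tmul_eq]
    let Φ : B ⊗[A] B →ₐ[A] C ⊗[S] C := Algebra.TensorProduct.productMap
      (((Algebra.TensorProduct.includeLeft : C →ₐ[S] C ⊗[S] C).restrictScalars A).comp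
        (IsScalarTower.toAlgHom A B C))
      (((Algebra.TensorProduct.includeRight : C →ₐ[S] C ⊗[S] C).restrictScalars A).comp
        (IsScalarTower.toAlgHom A B C))
    have hΦ : ∀ x y : B, Φ (x ⊗ₜ y) = (algebraMap B C x) ⊗ₜ (algebraMap B C y) := by
      intro x y
      simp [Φ]
    have hS : ∀ s ∈ S, (1 : C) ⊗ₜ[S] s = s ⊗ₜ[S] (1 : C) := by
      intro s hs
      have h1 : s = (⟨s, hs⟩ : S) • (1 : C) := by
        rw [Algebra.smul_def, mul_one]
        rfl
      conv_lhs => rw [h1]
      conv_rhs => rw [h1]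
      rw [TensorProduct.tmul_smul, TensorProduct.smul_tmul']
    have hB : ∀ s : B, (1 : C) ⊗ₜ[S] (algebraMap B C s) = (algebraMap B C s) ⊗ₜ[S] (1 : C) := by
      intro s
      have h1 : Φ (((1 : B) ⊗ₜ[A] s - s ⊗ₜ[A] (1 : B)) * algebraMap A (B ⊗[A] B) h) = 0 := by
        rw [hαβ, mul_add, map_add]
        have h2 : Φ (b ⊗ₜ 1 - 1 ⊗ₜ b) = 0 := by
          rw [map_sub, hΦ, hΦ, map_one, hS _ hbS, sub_self]
        have h3 : Φ (((1 : B) ⊗ₜ[A] s - s ⊗ₜ[A] (1 : B)) * (β * t)) = 0 := by
          rw [mul_left_comm, ht1, mul_zero, map_zero]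
        rw [h3, add_zero, map_mul, map_mul, h2, mul_zero, mul_zero]
      have h5 : Φ (algebraMap A (B ⊗[A] B) h) = (algebraMap A C h) ⊗ₜ[S] (1 : C) := by
        have h7 : algebraMap A (B ⊗[A] B) h = (algebraMap A B h) ⊗ₜ[A] (1 : B) := rfl
        rw [h7, hΦ, map_one, ← IsScalarTower.algebraMap_apply]
      rw [map_mul, h5, map_sub, hΦ, hΦ, map_one] at h1
      have h4 : (algebraMap A C h) ⊗ₜ[S] (1 : C) * (u ⊗ₜ[S] (1 : C)) = 1 := by
        rw [Algebra.TensorProduct.tmul_mul_tmul, hu, one_mul]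
        rfl
      have h6 := congrArg (· * (u ⊗ₜ[S] (1 : C))) h1
      simp only [mul_assoc, h4, mul_one, zero_mul] at h6
      exact sub_eq_zero.mp h6
    intro c
    obtain ⟨n, a, rfl⟩ := hdec c
    have h7 : (1 : C) ⊗ₜ[S] (algebraMap B C a * u ^ n) =
        ((1 : C) ⊗ₜ[S] (algebraMap B C a)) * ((1 : C) ⊗ₜ[S] (u ^ n)) := by
      rw [Algebra.TensorProduct.tmul_mul_tmul, one_mul]
    have h8 : (algebraMap B C a * u ^ n) ⊗ₜ[S] (1 : C) =
        ((algebraMap B C a) ⊗ₜ[S] (1 : C)) * ((u ^ n) ⊗ₜ[S] (1 : C)) := by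
      rw [Algebra.TensorProduct.tmul_mul_tmul, one_mul]
    rw [h7, h8, hB, hS _ (pow_mem huS n)]
  have hsurj : Function.Surjective (algebraMap S C) :=
    Algebra.isEpi_iff_surjective_algebraMap_of_finite.mp hepi
  rw [eq_top_iff]
  rintro c -
  obtain ⟨s, rfl⟩ := hsurj c
  exact s.2

end Pool.Agent.H854.LU
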