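import Pool.Agent.H854.LU.At

set_option autoImplicit false
set_option maxHeartbeats 1000000

/-!
# The rings `k[x_1, ..., x_n, w]` with `w` in `k[x_1, ..., x_n, w ^ p]` are smooth
-/

open Polynomial

namespace Pool.Agent.H854.LU

/-- The hypersurface `P = 0` is formally étale over the base if `P` and `P'` generate the unit
ideal. -/
theorem formallyEtale_adjoinRoot {A : Type} [CommRing A] (P : A[X])
    (h : IsCoprime P P.derivative) : Algebra.FormallyEtale A (AdjoinRoot P) := by
  obtain ⟨a, b, hab⟩ := h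
  have key : ∀ (B : Type) [CommRing B] [Algebra A B] (f : AdjoinRoot P →ₐ[A] B),
      aeval (f (AdjoinRoot.root P)) b * aeval (f (AdjoinRoot.root P)) P.derivative = 1 := by
    intro B _ _ f
    have h1 : aeval (f (AdjoinRoot.root P)) P = 0 := by
      rw [aeval_algHom_apply, AdjoinRoot.aeval_eq, AdjoinRoot.mk_self, map_zero]
    have h2 := congrArg (aeval (f (AdjoinRoot.root P))) hab
    rw [map_add, map_mul, map_mul, h1, mul_zero, zero_add, map_one] at h2
    exact h2
  rw [Algebra.FormallyEtale.iff_comp_bijective]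
  intro B _ _ I hI
  have hsq : ∀ y ∈ I, ∀ z ∈ I, y * z = 0 := by
    intro y hy z hz
    have h3 : y * z ∈ I ^ 2 := by
      rw [pow_two]
      exact Ideal.mul_mem_mul hy hz
    rw [hI] at h3
    exact h3
  constructor
  · intro f g hfg
    have h1 : ∀ r, f r - g r ∈ I := fun r => by
      have h2 := DFunLike.congr_fun hfg r
      exact Ideal.Quotient.eq.mp h2
    have hε := h1 (AdjoinRoot.root P)
    have h2 : aeval (f (AdjoinRoot.root P)) P = 0 := by
      rw [aeval_algHom_apply, AdjoinRoot.aeval_eq, AdjoinRoot.mk_self, map_zero]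
    have h3 : aeval (g (AdjoinRoot.root P)) P = 0 := by
      rw [aeval_algHom_apply, AdjoinRoot.aeval_eq, AdjoinRoot.mk_self, map_zero]
    have h4 := Polynomial.aeval_add_of_sq_eq_zero P (g (AdjoinRoot.root P))
      (f (AdjoinRoot.root P) - g (AdjoinRoot.root P)) (by rw [pow_two]; exact hsq _ hε _ hε)
    rw [add_sub_cancel, h2, h3, zero_add] at h4
    have h5 : f (AdjoinRoot.root P) - g (AdjoinRoot.root P) = 0 := by
      calc f (AdjoinRoot.root P) - g (AdjoinRoot.root P)
          = (aeval (g (AdjoinRoot.root P)) b * aeval (g (AdjoinRoot.root P)) P.derivative) *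
            (f (AdjoinRoot.root P) - g (AdjoinRoot.root P)) := by rw [key B g, one_mul]
        _ = 0 := by rw [mul_assoc, ← h4, mul_zero]
    exact AdjoinRoot.algHom_ext (sub_eq_zero.mp h5)
  · intro f
    obtain ⟨y, hy⟩ := Ideal.Quotient.mk_surjective (f (AdjoinRoot.root P))
    have hmk : ∀ q : A[X], Ideal.Quotient.mk I (aeval y q) = aeval (f (AdjoinRoot.root P)) q := by
      intro q
      rw [← hy]
      exact (aeval_algHom_apply (Ideal.Quotient.mkₐ A I) y q).symm
    have h1 : aeval y P ∈ I := by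
      rw [← Ideal.Quotient.eq_zero_iff_mem, hmk, aeval_algHom_apply, AdjoinRoot.aeval_eq,
        AdjoinRoot.mk_self, map_zero]
    have h2 : 1 - aeval y P.derivative * aeval y b ∈ I := by
      rw [← Ideal.Quotient.eq_zero_iff_mem, map_sub, map_one, map_mul, hmk, hmk, mul_comm,
        key _ f, sub_self]
    let ε : B := - (aeval y b * aeval y P)
    have hε : ε ∈ I := I.neg_mem (I.mul_mem_left _ h1)
    have h3 : aeval (y + ε) P = 0 := by
      rw [Polynomial.aeval_add_of_sq_eq_zero P y ε (by rw [pow_two]; exact hsq _ hε _ hε)]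
      have h4 : aeval y P + aeval y P.derivative * ε =
          (1 - aeval y P.derivative * aeval y b) * aeval y P := by
        simp only [ε]
        ring
      rw [h4]
      exact hsq _ h2 _ h1
    refine ⟨AdjoinRoot.liftAlgHom P (Algebra.ofId A B) (y + ε) (by
      rw [← h3]; rfl), ?_⟩
    refine AdjoinRoot.algHom_ext ?_
    rw [AlgHom.comp_apply, AdjoinRoot.liftAlgHom_root]
    change Ideal.Quotient.mk I (y + ε) = _
    rw [map_add, hy, Ideal.Quotient.eq_zero_iff_mem.mpr hε, add_zero]


/-- The ring `k[x_1, ..., x_n, w]`. -/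
abbrev pring (k : Type) {K : Type} [Field k] [Field K] [Algebra k K] {n : ℕ} (x : Fin n → K)
    (w : K) : Subalgebra k K := Algebra.adjoin k (insert w (Set.range x))

theorem exists_poly_of_mem (k : Type) {K : Type} [Field k] [Field K] [Algebra k K] {n : ℕ}
    (x : Fin n → K) (w : K) {y : K} (hy : y ∈ pring k x w) :
    ∃ Q : (MvPolynomial (Fin n) k)[X], eval₂ (MvPolynomial.aeval x : MvPolynomial (Fin n) k →ₐ[k] K).toRingHom w Q = y := by
  let φ : MvPolynomial (Fin n) k →+* K := (MvPolynomial.aeval x : MvPolynomial (Fin n) k →ₐ[k] K).toRingHom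
  change ∃ Q : (MvPolynomial (Fin n) k)[X], eval₂ φ w Q = y
  induction hy using Algebra.adjoin_induction with
  | mem y hy =>
    rcases Set.mem_insert_iff.mp hy with rfl | ⟨i, rfl⟩
    · exact ⟨X, eval₂_X _ _⟩
    · refine ⟨C (MvPolynomial.X i), ?_⟩
      rw [eval₂_C]
      exact MvPolynomial.aeval_X x i
  | algebraMap r =>
    refine ⟨C (MvPolynomial.C r), ?_⟩
    rw [eval₂_C]
    exact MvPolynomial.aeval_C x r
  | add y y' _ _ hy hy' =>
    obtain ⟨Q, rfl⟩ := hy
    obtain ⟨Q', rfl⟩ := hy'
    exact ⟨Q + Q', eval₂_add _ _⟩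
  | mul y y' _ _ hy hy' =>
    obtain ⟨Q, rfl⟩ := hy
    obtain ⟨Q', rfl⟩ := hy'
    exact ⟨Q * Q', eval₂_mul _ _⟩

theorem eval₂_mem (k : Type) {K : Type} [Field k] [Field K] [Algebra k K] {n : ℕ}
    (x : Fin n → K) (w : K) (Q : (MvPolynomial (Fin n) k)[X]) :
    eval₂ (MvPolynomial.aeval x : MvPolynomial (Fin n) k →ₐ[k] K).toRingHom w Q ∈ pring k x w := by
  rw [eval₂_eq_sum_range]
  refine sum_mem fun i _ => mul_mem ?_ (pow_mem (Algebra.subset_adjoin (Set.mem_insert _ _)) i)
  have h1 : (MvPolynomial.aeval x : MvPolynomial (Fin n) k →ₐ[k] K) (Q.coeff i) ∈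
      Algebra.adjoin k (Set.range x) := by
    rw [← MvPolynomial.aeval_range]
    exact ⟨_, rfl⟩
  exact Algebra.adjoin_mono (Set.subset_insert _ _) h1

/-- If `w` is a polynomial in `x_1, ..., x_n, w ^ p`, then `k[x_1, ..., x_n, w]` is smooth. -/
theorem smooth_pring (p : ℕ) [Fact p.Prime] (k K : Type) [Field k] [CharP k p] [Field K]
    [Algebra k K] {n : ℕ} (x : Fin n → K) (w : K) (hn : Algebra.trdeg k K = n)
    (hfr : ∀ z : K, ∃ a ∈ pring k x w, ∃ b ∈ pring k x w, b ≠ 0 ∧ z = a / b)
    (hw : w ∈ pring k x (w ^ p)) : Algebra.Smooth k (pring k x w) := by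
  classical
  let A := MvPolynomial (Fin n) k
  let φ : A →+* K := (MvPolynomial.aeval x : MvPolynomial (Fin n) k →ₐ[k] K).toRingHom
  have hcA : CharP A p := charP_of_injective_algebraMap (MvPolynomial.C_injective (Fin n) k) p
  obtain ⟨Q, hQ⟩ := exists_poly_of_mem k x (w ^ p) hw
  let F : A[X] := X - expand A p Q
  have hFw : eval₂ φ w F = 0 := by
    have h1 : eval₂ φ w (expand A p Q) = w := by
      rw [expand_eq_comp_X_pow, eval₂_comp, eval₂_pow, eval₂_X]
      exact hQ
    rw [eval₂_sub, eval₂_X, h1, sub_self]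
  have hF' : F.derivative = 1 := by
    have h1 : (p : A[X]) = 0 := by
      have h2 : (p : A) = 0 := CharP.cast_eq_zero A p
      rw [← C_eq_natCast, h2, C_0]
    simp only [F]
    rw [derivative_sub, derivative_X, derivative_expand, h1, zero_mul, mul_zero, sub_zero]
  let S₀ := Algebra.adjoin k (Set.range x)
  have hφS : ∀ a, φ a ∈ S₀ := by
    intro a
    change (MvPolynomial.aeval x : MvPolynomial (Fin n) k →ₐ[k] K) a ∈ Algebra.adjoin k (Set.range x)
    rw [← MvPolynomial.aeval_range]
    exact ⟨_, rfl⟩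
  let φ₀ : A →+* S₀ := φ.codRestrict S₀ hφS
  have hwalg : IsAlgebraic S₀ w := by
    refine ⟨F.map φ₀, fun h => ?_, ?_⟩
    · have h1 := congrArg derivative h
      rw [derivative_map, hF', derivative_zero, Polynomial.map_one] at h1
      exact one_ne_zero h1
    · rw [aeval_def, eval₂_map]
      exact hFw
  have halg1 : ∀ y ∈ pring k x w, IsAlgebraic S₀ y := by
    intro y hy
    induction hy using Algebra.adjoin_induction with
    | mem y hy =>
      rcases Set.mem_insert_iff.mp hy with rfl | ⟨i, rfl⟩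
      · exact hwalg
      · exact isAlgebraic_algebraMap (⟨x i, Algebra.subset_adjoin ⟨i, rfl⟩⟩ : S₀)
    | algebraMap r =>
      rw [IsScalarTower.algebraMap_apply k S₀ K]
      exact isAlgebraic_algebraMap _
    | add y y' _ _ hy hy' => exact hy.add hy'
    | mul y y' _ _ hy hy' => exact hy.mul hy'
  have halg : Algebra.IsAlgebraic S₀ K := by
    refine ⟨fun z => ?_⟩
    obtain ⟨a, ha, b, hb, hb0, rfl⟩ := hfr z
    rw [div_eq_mul_inv]
    exact (halg1 a ha).mul (halg1 b hb).inv
  have htb : IsTranscendenceBasis k x := by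
    refine Algebra.IsAlgebraic.isTranscendenceBasis_of_lift_le_trdeg_of_finite k x ?_
    rw [hn]
    simp
  have hφinj : Function.Injective φ := htb.1
  have hF0 : F ≠ 0 := by
    intro h
    rw [h, derivative_zero] at hF'
    exact zero_ne_one hF'
  obtain ⟨P, hPirr, hPF, hPw⟩ : ∃ P : A[X], Irreducible P ∧ P ∣ F ∧ eval₂ φ w P = 0 := by
    have h1 := UniqueFactorizationMonoid.factors_prod hF0
    obtain ⟨u, hu⟩ := h1
    have h2 : eval₂ φ w (UniqueFactorizationMonoid.factors F).prod = 0 := by
      have h3 : eval₂ φ w (UniqueFactorizationMonoid.factors F).prod * eval₂ φ w (u : A[X]) = 0 := by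
        rw [← eval₂_mul, hu, hFw]
      refine (mul_eq_zero.mp h3).resolve_right ?_
      have h4 : IsUnit (eval₂RingHom φ w (u : A[X])) := (Units.isUnit u).map _
      exact h4.ne_zero
    have h5 : eval₂RingHom φ w (UniqueFactorizationMonoid.factors F).prod = 0 := h2
    rw [map_multiset_prod, Multiset.prod_eq_zero_iff, Multiset.mem_map] at h5
    obtain ⟨P, hP, hP0⟩ := h5
    exact ⟨P, UniqueFactorizationMonoid.irreducible_of_factor P hP,
      UniqueFactorizationMonoid.dvd_of_mem_factors hP, hP0⟩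
  have hcop : IsCoprime P P.derivative := HF.isCoprime_of_dvd hF' hPF
  have hdom : IsDomain (AdjoinRoot P) := HF.isDomain_adjoinRoot hPirr
  let a1 : Algebra A K := φ.toAlgebra
  have hPw' : eval₂ (algebraMap A K) w P = 0 := hPw
  let ψ : AdjoinRoot P →ₐ[A] K := AdjoinRoot.liftAlgHom P (Algebra.ofId A K) w hPw'
  have hPn : P ≠ 0 := hPirr.ne_zero
  have hrootalg : IsAlgebraic A (AdjoinRoot.root P) := by
    refine ⟨P, hPn, ?_⟩
    rw [AdjoinRoot.aeval_eq, AdjoinRoot.mk_self]
  have halgE : ∀ e : AdjoinRoot P, IsAlgebraic A e := by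
    intro e
    have he : e ∈ Algebra.adjoin A {AdjoinRoot.root P} := by
      rw [AdjoinRoot.adjoinRoot_eq_top]
      trivial
    induction he using Algebra.adjoin_induction with
    | mem y hy =>
      rw [Set.mem_singleton_iff] at hy
      rw [hy]
      exact hrootalg
    | algebraMap r => exact isAlgebraic_algebraMap r
    | add y y' _ _ hy hy' => exact hy.add hy'
    | mul y y' _ _ hy hy' => exact hy.mul hy'
  have hψinj : Function.Injective ψ := by
    rw [injective_iff_map_eq_zero]
    intro e he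
    by_contra he0
    obtain ⟨a, ha0, c, hc⟩ := (halgE e).exists_nonzero_dvd (mem_nonZeroDivisors_of_ne_zero he0)
    have h1 : ψ (algebraMap A (AdjoinRoot P) a) = 0 := by rw [hc, map_mul, he, zero_mul]
    rw [ψ.commutes] at h1
    exact ha0 (hφinj (h1.trans (map_zero φ).symm))
  have hst : IsScalarTower k A K :=
    IsScalarTower.of_algebraMap_eq' (MvPolynomial.aeval x).comp_algebraMap.symm
  let ψk : AdjoinRoot P →ₐ[k] K := ψ.restrictScalars k
  have hrange : ψk.range = pring k x w := by
    apply le_antisymm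
    · rintro _ ⟨e, rfl⟩
      obtain ⟨q, rfl⟩ := AdjoinRoot.mk_surjective e
      have h1 : ψk (AdjoinRoot.mk P q) = eval₂ φ w q := by
        change ψ (AdjoinRoot.mk P q) = _
        exact AdjoinRoot.liftAlgHom_mk P (Algebra.ofId A K) w hPw' q
      change ψk (AdjoinRoot.mk P q) ∈ _
      rw [h1]
      exact eval₂_mem k x w q
    · rw [Algebra.adjoin_le_iff]
      rintro y hy
      rcases Set.mem_insert_iff.mp hy with rfl | ⟨i, rfl⟩
      · exact ⟨AdjoinRoot.root P, AdjoinRoot.liftAlgHom_root P (Algebra.ofId A K) _ hPw'⟩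
      · refine ⟨algebraMap A (AdjoinRoot P) (MvPolynomial.X i), ?_⟩
        change ψ (algebraMap A (AdjoinRoot P) (MvPolynomial.X i)) = x i
        rw [ψ.commutes]
        exact MvPolynomial.aeval_X x i
  let e : AdjoinRoot P ≃ₐ[k] pring k x w :=
    (AlgEquiv.ofInjective ψk hψinj).trans (Subalgebra.equivOfEq _ _ hrange)
  have h1 : Algebra.FormallyEtale A (AdjoinRoot P) := formallyEtale_adjoinRoot P hcop
  have h2 : Algebra.FinitePresentation A (AdjoinRoot P) := inferInstance
  have h3 : Algebra.FormallySmooth A (AdjoinRoot P) := inferInstance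
  have h4 : Algebra.FormallySmooth k (AdjoinRoot P) := Algebra.FormallySmooth.comp k A (AdjoinRoot P)
  have h5 : Algebra.FinitePresentation k (AdjoinRoot P) := Algebra.FinitePresentation.trans k A (AdjoinRoot P)
  have h6 : Algebra.Smooth k (AdjoinRoot P) := ⟨h4, h5⟩
  exact Algebra.Smooth.of_equiv e

end Pool.Agent.H854.LU
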